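import Pool.Agent.W957.MF.Stm2

/-! Project MF: the key claim on pin sequences. -/

set_option autoImplicit false

namespace Pool.Agent.W991.MF

open Finset Pool.Agent.W957.MF

lemma sl_irrefl (s : Bool) (a : ℤ) : ¬ sl s a a := by cases s <;> simp [sl]

lemma sl_trans {s : Bool} {a b c : ℤ} (h : sl s a b) (h' : sl s b c) : sl s a c := by
  cases s
  · exact lt_trans h' h
  · exact lt_trans h h'

lemma sl_asymm {s : Bool} {a b : ℤ} (h : sl s a b) : ¬ sl s b a := fun h' =>
  sl_irrefl s a (sl_trans h h')

lemma sl_flip {s : Bool} {a b : ℤ} (h : sl (!s) a b) : sl s b a := by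
  cases s
  · exact h
  · exact h

lemma sl_excl {s s' : Bool} {a b : ℤ} (h : sl s a b) (h' : sl s' a b) : s = s' := by
  cases s <;> cases s' <;> simp only [sl] at h h' <;> first | rfl | omega

lemma sl_of_not {s : Bool} {h x a : ℤ} (h1 : ¬ sl s h x) (h2 : sl s h a) : sl s x a := by
  cases s <;> simp only [sl] at h1 h2 ⊢ <;> omega

section

variable {z : Conf} {n : ℕ} {Q : ℕ → Bool → Bool} {e : ℕ → Bool}

lemma count1 {k : ℕ} {φA φB : Fin k → ℕ} (hA : Function.Injective φA)
    {b s : Bool} (hsl : ∀ u v, sl s (z b (φA u)) (z b (φA v)) ↔ sl s (z b (φB u)) (z b (φB v)))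
    (u : Fin k) (S : Finset ℕ) (κ : ℕ)
    (h1 : ∀ v, sl s (z b (φA u)) (z b (φA v)) → φA v ∈ S) (h2 : κ ∉ S)
    (h3 : ∀ x ∈ insert κ S, ∃ v, φB v = x ∧ sl s (z b (φB u)) (z b x)) : False := by
  classical
  set X := Finset.univ.filter (fun v : Fin k => sl s (z b (φA u)) (z b (φA v))) with hX
  have c1 : X.card ≤ S.card := by
    apply Finset.card_le_card_of_injOn φA
    · intro v hv
      exact h1 v (by simpa [hX] using hv)
    · exact hA.injOn
  have c2 : (insert κ S).card ≤ X.card := by
    have : insert κ S ⊆ X.image φB := by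
      intro x hx
      obtain ⟨v, hv, hs⟩ := h3 x hx
      rw [Finset.mem_image]
      refine ⟨v, ?_, hv⟩
      rw [hX, Finset.mem_filter]
      refine ⟨Finset.mem_univ v, (hsl u v).2 ?_⟩
      rw [hv]; exact hs
    exact (Finset.card_le_card this).trans Finset.card_image_le
  rw [Finset.card_insert_of_notMem h2] at c2
  omega

lemma count2 {k : ℕ} {φA φB : Fin k → ℕ} (hB : Function.Injective φB)
    {b s : Bool} (hsl : ∀ u v, sl s (z b (φA u)) (z b (φA v)) ↔ sl s (z b (φB u)) (z b (φB v)))
    (u : Fin k) (S : Finset ℕ)
    (h0 : φB u ∈ S) (h1 : ∀ v, sl s (z b (φB u)) (z b (φB v)) → φB v ∈ S)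
    (h3 : ∀ x ∈ S, ∃ v, φA v = x ∧ sl s (z b (φA u)) (z b x)) : False := by
  classical
  set X := Finset.univ.filter (fun v : Fin k => v = u ∨ sl s (z b (φA u)) (z b (φA v))) with hX
  have c1 : X.card ≤ S.card := by
    apply Finset.card_le_card_of_injOn φB
    · intro v hv
      have hv' : v = u ∨ sl s (z b (φA u)) (z b (φA v)) := by simpa [hX] using hv
      rcases hv' with rfl | hv'
      · exact h0
      · exact h1 v ((hsl u v).1 hv')
    · exact hB.injOn
  have h2 : φA u ∉ S := by
    intro hu
    obtain ⟨v, -, hs⟩ := h3 _ hu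
    exact sl_irrefl s _ hs
  have c2 : (insert (φA u) S).card ≤ X.card := by
    have : insert (φA u) S ⊆ X.image φA := by
      intro x hx
      rw [Finset.mem_image]
      rcases Finset.mem_insert.1 hx with rfl | hx
      · exact ⟨u, by rw [hX, Finset.mem_filter]; exact ⟨Finset.mem_univ u, Or.inl rfl⟩, rfl⟩
      · obtain ⟨v, hv, hs⟩ := h3 x hx
        refine ⟨v, ?_, hv⟩
        rw [hX, Finset.mem_filter]
        refine ⟨Finset.mem_univ v, Or.inr ?_⟩
        rw [hv]; exact hs
    exact (Finset.card_le_card this).trans Finset.card_image_le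
  rw [Finset.card_insert_of_notMem h2] at c2
  omega

end

/-- the key claim -/
theorem t_U (h : S_PINF) : S_U := by
  intro z n Q e P k A T i j j0 φA φB hA hB hord himA himB hT hTi hij hjn hAn hiA hAj
  have hsl : ∀ b s u v, sl s (z b (φA u)) (z b (φA v)) ↔ sl s (z b (φB u)) (z b (φB v)) := by
    intro b s u v
    cases s
    · exact hord b v u
    · exact hord b u v
  obtain ⟨t0, ht0⟩ := hT
  have hi3 : 3 ≤ i := by have := hTi t0 ht0; omega
  have hj0 : i - 1 ≤ j0 := (hAj (i - 1) le_rfl).1 hiA
  have hmemA : ∀ a, a ∈ A ↔ ∃ v, φA v = a := by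
    intro a; rw [← himA]; simp
  have hmemB : ∀ a, (a ∈ T ∨ (i ≤ a ∧ a ≤ j)) ↔ ∃ v, φB v = a := by
    intro a
    have : a ∈ T ∪ Icc i j ↔ ∃ v, φB v = a := by rw [← himB]; simp
    rw [← this, Finset.mem_union, Finset.mem_Icc]
  have hAn' : ∀ v, 1 ≤ φA v ∧ φA v ≤ n := by
    intro v
    have := hAn ((hmemA (φA v)).2 ⟨v, rfl⟩)
    rwa [Finset.mem_Icc] at this
  have hAj' : ∀ v, i - 1 ≤ φA v → φA v ≤ j0 := by
    intro v hv
    exact (hAj _ hv).1 ((hmemA _).2 ⟨v, rfl⟩)
  intro u huT
  by_contra hcon
  push Not at hcon
  have hut := hTi _ huT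
  rcases le_or_gt j0 j with hcase | hcase
  · -- case 1
    rcases Nat.lt_or_ge (φA u) i with hk | hk
    · -- 1b : φA u = i - 1
      have hk' : φA u = i - 1 := by omega
      set b := e i with hb
      set s := Q i b with hs
      have hi_n : i ≤ n := by omega
      have hF : sl s (z b i) (z b (i - 1)) := sl_flip (P.nearF i hi3 hi_n)
      classical
      refine count1 (z := z) (b := b) (s := s) hA (hsl b s) u
        ((Icc (i + 1) j0).filter (fun a => Q a b = s)) i ?_ ?_ ?_
      · intro v hv
        rw [hk'] at hv
        have hv0 := hAn' v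
        have hv1 : i + 1 ≤ φA v := by
          by_contra hlt
          push Not at hlt
          rcases Nat.lt_or_ge (φA v + 1) i with h1 | h1
          · have h2 : sl s (z b (φA v)) (z b i) := P.far i (φA v) b hi3 hi_n hv0.1 (by omega)
            exact sl_asymm (sl_trans h2 hF) hv
          · rcases Nat.lt_or_ge (φA v) i with h2 | h2
            · have h3 : φA v = i - 1 := by omega
              rw [h3] at hv
              exact sl_irrefl _ _ hv
            · have h3 : φA v = i := by omega
              rw [h3] at hv
              exact sl_asymm hF hv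
        rw [Finset.mem_filter, Finset.mem_Icc]
        refine ⟨⟨hv1, hAj' v (by omega)⟩, ?_⟩
        exact sl_excl (P.far (φA v) (i - 1) b (by omega) hv0.2 (by omega) (by omega)) hv
      · rw [Finset.mem_filter, Finset.mem_Icc]
        omega
      · intro x hx
        rcases Finset.mem_insert.1 hx with rfl | hx
        · exact ⟨_, ((hmemB x).1 (Or.inr ⟨le_rfl, hij⟩)).choose_spec,
            P.far x (φB u) b hi3 hi_n hut.1 hut.2⟩
        · rw [Finset.mem_filter, Finset.mem_Icc] at hx
          refine ⟨_, ((hmemB x).1 (Or.inr ⟨by omega, by omega⟩)).choose_spec, ?_⟩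
          have := P.far x (φB u) b (by omega) (by omega) hut.1 (by omega)
          rwa [hx.2] at this
    · -- 1a
      set κ := φA u with hκ
      set b := !e κ with hb
      set s := Q κ b with hs
      have hκn := hAn' u
      rw [← hκ] at hκn
      have hκ0 : κ ≤ j0 := hAj' u (by omega)
      classical
      refine count1 (z := z) (b := b) (s := s) hA (hsl b s) u
        ((Icc (κ + 2) j0).filter (fun a => Q a b = s)) κ ?_ ?_ ?_
      · intro v hv
        rw [← hκ] at hv
        have hv0 := hAn' v
        have hv1 : κ + 2 ≤ φA v := by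
          by_contra hlt
          push Not at hlt
          rcases Nat.lt_or_ge (φA v + 1) κ with h1 | h1
          · have h2 : sl s (z b (φA v)) (z b κ) :=
              P.far κ (φA v) b (by omega) hκn.2 hv0.1 (by omega)
            exact sl_asymm h2 hv
          · rcases Nat.lt_or_ge (φA v) κ with h2 | h2
            · have h3 : φA v = κ - 1 := by omega
              rw [h3] at hv
              exact sl_asymm (P.nearE κ (by omega) hκn.2) hv
            · rcases Nat.lt_or_ge κ (φA v) with h4 | h4
              · have h3 : φA v = κ + 1 := by omega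
                have hn1 : κ + 1 ≤ n := by rw [← h3]; exact hv0.2
                rw [h3] at hv
                obtain ⟨p1, p2⟩ := h z n Q e P κ (by omega) hn1
                have h5 := P.nearF (κ + 1) (by omega) hn1
                rw [p1, p2, Nat.add_sub_cancel] at h5
                exact sl_asymm hv (sl_flip h5)
              · have h3 : φA v = κ := by omega
                rw [h3] at hv
                exact sl_irrefl _ _ hv
        rw [Finset.mem_filter, Finset.mem_Icc]
        refine ⟨⟨hv1, hAj' v (by omega)⟩, ?_⟩
        exact sl_excl (P.far (φA v) κ b (by omega) hv0.2 (by omega) (by omega)) hv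
      · rw [Finset.mem_filter, Finset.mem_Icc]
        omega
      · intro x hx
        rcases Finset.mem_insert.1 hx with h1 | hx
        · rw [h1]
          exact ⟨_, ((hmemB κ).1 (Or.inr ⟨hk, by omega⟩)).choose_spec,
            P.far κ (φB u) b (by omega) hκn.2 hut.1 (by omega)⟩
        · rw [Finset.mem_filter, Finset.mem_Icc] at hx
          refine ⟨_, ((hmemB x).1 (Or.inr ⟨by omega, by omega⟩)).choose_spec, ?_⟩
          have := P.far x (φB u) b (by omega) (by omega) hut.1 (by omega)
          rwa [hx.2] at this
  · -- case 2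
    have hj0n : j0 ≤ n := by
      have h1 := (hAj j0 hj0).2 le_rfl
      have := hAn h1
      rw [Finset.mem_Icc] at this
      exact this.2
    have hi4 : 4 ≤ i := by
      by_contra hlt
      have hi : i = 3 := by omega
      have c1 : A.card = k := by
        rw [← himA, Finset.card_image_of_injective _ hA]; simp
      have c2 : (T ∪ Icc i j).card = k := by
        rw [← himB, Finset.card_image_of_injective _ hB]; simp
      have c3 : Icc 2 j0 ⊆ A := by
        intro a ha
        rw [Finset.mem_Icc] at ha
        exact (hAj a (by omega)).2 ha.2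
      have c4 : T ∪ Icc i j ⊆ {1} ∪ Icc 3 j := by
        intro a ha
        rw [Finset.mem_union] at ha ⊢
        rcases ha with ha | ha
        · left
          have := hTi a ha
          rw [Finset.mem_singleton]
          omega
        · right
          rwa [hi] at ha
      have c5 := Finset.card_le_card c3
      have c6 := (Finset.card_le_card c4).trans (Finset.card_union_le _ _)
      rw [Nat.card_Icc] at c5
      rw [Nat.card_Icc, Finset.card_singleton] at c6
      omega
    -- 2a
    have h2a : ∀ v, i ≤ φB v → φB v ≤ j → i ≤ φA v ∧ ∀ b, Q (φA v) b = Q (φB v) b := by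
      intro v hv1 hv2
      have hbey : ∀ b x, 1 ≤ x → x + 2 ≤ i → sl (Q (φB v) b) (z b x) (z b (φA v)) := by
        intro b x hx1 hx2
        by_contra hno
        classical
        refine count2 (z := z) (b := b) (s := Q (φB v) b) hB (hsl b _) v
          ((Icc i j).filter (fun a => Q a b = Q (φB v) b)) ?_ ?_ ?_
        · rw [Finset.mem_filter, Finset.mem_Icc]
          exact ⟨⟨hv1, hv2⟩, rfl⟩
        · intro w hw
          have hfar : sl (Q (φB v) b) (z b 1) (z b (φB v)) :=
            P.far (φB v) 1 b (by omega) (by omega) le_rfl (by omega)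
          rcases (hmemB (φB w)).2 ⟨w, rfl⟩ with hwT | hwI
          · exfalso
            have := hTi _ hwT
            exact sl_asymm (P.far (φB v) (φB w) b (by omega) (by omega) this.1 (by omega)) hw
          · rw [Finset.mem_filter, Finset.mem_Icc]
            refine ⟨hwI, ?_⟩
            exact sl_excl (P.far (φB w) 1 b (by omega) (by omega) le_rfl (by omega))
              (sl_trans hfar hw)
        · intro a ha
          rw [Finset.mem_filter, Finset.mem_Icc] at ha
          obtain ⟨w, hw⟩ := (hmemA a).1 ((hAj a (by omega)).2 (by omega))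
          refine ⟨w, hw, sl_of_not hno ?_⟩
          have := P.far a x b (by omega) (by omega) hx1 (by omega)
          rwa [ha.2] at this
      have hge : i ≤ φA v := by
        by_contra hlt
        push Not at hlt
        rcases Nat.lt_or_ge (φA v + 1) i with h1 | h1
        · exact sl_irrefl _ _ (hbey true (φA v) (hAn' v).1 (by omega))
        · have h2 : φA v = i - 1 := by omega
          have h3 := hbey (e (i - 1)) 1 le_rfl (by omega)
          have h4 := hbey (e (i - 1)) (i - 2) (by omega) (by omega)
          rw [h2] at h3 h4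
          have h5 := P.far (i - 1) 1 (e (i - 1)) (by omega) (by omega) le_rfl (by omega)
          have h6 := sl_excl h3 h5
          rw [h6] at h4
          have h7 := P.nearF (i - 1) (by omega) (by omega)
          have h8 : i - 1 - 1 = i - 2 := by omega
          rw [h8] at h7
          exact sl_asymm h4 (sl_flip h7)
      refine ⟨hge, fun b => ?_⟩
      exact sl_excl (P.far (φA v) 1 b (by omega) (hAn' v).2 le_rfl (by omega))
        (hbey b 1 le_rfl (by omega))
    -- 2b
    have h2b : ∀ m, i - 1 + m ≤ j0 → ∃ v, φB v ∈ T ∧ φA v = i - 1 + m := by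
      intro m
      induction m with
      | zero =>
        intro _
        obtain ⟨v, hv⟩ := (hmemA (i - 1)).1 hiA
        refine ⟨v, ?_, by omega⟩
        rcases (hmemB (φB v)).2 ⟨v, rfl⟩ with h1 | h1
        · exact h1
        · have := (h2a v h1.1 h1.2).1
          omega
      | succ m ih =>
        intro hm
        obtain ⟨w, hw1, hw2⟩ := ih (by omega)
        obtain ⟨v, hv⟩ := (hmemA (i - 1 + (m + 1))).1 ((hAj _ (by omega)).2 hm)
        refine ⟨v, ?_, hv⟩
        rcases (hmemB (φB v)).2 ⟨v, rfl⟩ with h1 | h1
        · exact h1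
        · exfalso
          obtain ⟨-, hQ⟩ := h2a v h1.1 h1.2
          have hwT := hTi _ hw1
          have hn := (hAn' v).2
          have h3 := P.nearF (φA v) (by omega) hn
          have h4 : φA v - 1 = φA w := by omega
          rw [h4] at h3
          have h5 : sl (Q (φB v) (e (φA v))) (z (e (φA v)) (φB w)) (z (e (φA v)) (φB v)) :=
            P.far (φB v) (φB w) _ (by omega) (by omega) hwT.1 (by omega)
          have h6 := (hsl (e (φA v)) _ w v).2 h5
          rw [← hQ] at h6
          exact sl_asymm h6 (sl_flip h3)
    -- contradiction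
    obtain ⟨v, hv⟩ := (hmemB i).1 (Or.inr ⟨le_rfl, hij⟩)
    have h1 := (h2a v (by omega) (by omega)).1
    have h2 := hAj' v (by omega)
    obtain ⟨w, hw1, hw2⟩ := h2b (φA v - (i - 1)) (by omega)
    have h3 : φA w = φA v := by omega
    have h4 : w = v := hA h3
    have h5 := hTi _ hw1
    rw [h4] at h5
    omega

end Pool.Agent.W991.MF
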